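import Pool.Agent.U167.SA.Stm7
import Pool.Agent.U578.SA.KEY

/-!
Project SA (helper167), package KEYXW: the mixed configuration has the arm, general targets, rough
boundaries. Adapted from the files of helper578 (KEY) and helper394 (KEYW).
-/

set_option autoImplicit false

namespace Pool.Agent.U433.SA

open H974 Pool.Agent.U167.SA Pool.Agent.U578.SA

theorem far_out {R r : ℕ} {v : Vtx} (h : ¬ inB R v) (hr : r ≤ R + 1) :
    v.1 ≤ -(r:ℤ) ∨ (r:ℤ) ≤ v.1 ∨ v.2 ≤ -(r:ℤ) ∨ (r:ℤ) ≤ v.2 := by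
  simp only [inB, inR] at h
  omega

/-- A path avoids the edges of the box of radius `r`, or its part before the first such edge ends in
the box. -/
theorem first_in {G : Set Edg} {r : ℕ} {u v : Vtx} (h : Reach G u v) :
    Reach (G \ ↑(boxE r)) u v ∨ ∃ w, inB r w ∧ Reach (G \ ↑(boxE r)) u w ∧ Reach G w v := by
  induction h with
  | refl => exact Or.inl (Reach.refl _ _)
  | @tail v' v'' _ hs ih =>
    rcases ih with ih | ⟨w, hw, h1, h2⟩
    · obtain ⟨e, he, hc⟩ := hs
      by_cases hb : e ∈ boxE r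
      · refine Or.inr ⟨v', ?_, ih, Adj.reach ⟨e, he, hc⟩⟩
        obtain ⟨h1, h2⟩ := mem_boxE_ends hb
        rcases hc with ⟨h3, h4⟩ | ⟨h3, h4⟩
        · rw [← h3]; exact h1
        · rw [← h4]; exact h2
      · exact Or.inl (ih.trans (Adj.reach ⟨e, ⟨he, by simpa using hb⟩, hc⟩))
    · exact Or.inr ⟨w, hw, h1, h2.trans (Adj.reach hs)⟩

theorem t_KEYXW : KeyXWStm := by
  intro h s0 w0 hw0 hlip s hs hs0 Gi Go Gm hGi hGo hGm F F' hQ
  set X := mix (boxE (16*s)) F F' with hX
  obtain ⟨hB1, hB2, hR⟩ := hQ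
  have hs' : (0:ℤ) < s := by exact_mod_cast hs
  have hs0' : (s0:ℤ) ≤ s := by exact_mod_cast hs0
  have hwle : ∀ h : ℤ, w0 h ≤ s := fun h => (le_abs_self _).trans ((hw0 h).trans hs0')
  -- the hubs
  obtain ⟨z1, hz1⟩ := h (4*s) w0 (by omega)
    (by intro t; have := hw0 t; push_cast; omega)
    (by intro t ht; refine hlip t ?_; push_cast at ht; omega) X Gm
    (by
      intro e he he'
      apply hGm e
      · exact boxE_mono (by omega) he
      · intro h'
        exact he' (boxE_mono (by omega) h')) hB1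
  obtain ⟨z2, hz2⟩ := h (20*s) w0 (by omega)
    (by intro t; have := hw0 t; push_cast; omega)
    (by intro t ht; refine hlip t ?_; push_cast at ht; omega) X Gm
    (by
      intro e he he'
      apply hGm e
      · exact boxE_mono (by omega) he
      · intro h'
        exact he' (boxE_mono (by omega) h')) hB2
  have e1 : 4 * (4 * s) = 16 * s := by ring
  have e2 : 4 * (20 * s) = 80 * s := by ring
  rw [e1] at hz1
  rw [e2] at hz2
  have mono : ∀ (k : ℕ) (x y : Vtx), Reach (↑X ∩ Gm ∩ ↑(boxE k)) x y → Reach (↑X ∩ Gm) x y :=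
    fun k x y hr => hr.mono Set.inter_subset_left
  -- the radial crossing
  obtain ⟨y, y', hy, hy', hrad⟩ := hR
  have hradJ : Reach (↑X ∩ Gm) ((0:ℤ), y) ((80*s+1 : ℤ), y') := by
    apply hrad.mono
    rintro e ⟨h1, h2⟩
    refine ⟨h1, ?_⟩
    have h2' : e ∈ LRE 0 (80*s+1) (-(3*s)) (-(2*s)) := h2
    obtain ⟨x0, y0, _ | _⟩ := e
    · rw [mem_LRE_false] at h2'
      refine (hGm _ ?_ ?_).mpr ?_
      · simp only [boxE, mem_RE_false]; push_cast; omega
      · simp only [boxE, mem_RE_false]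
        omega
      · simp only [Dw, Set.mem_ofPred_eq, src_mk, tgt_false, col, ht]
        exact ⟨(hwle _).trans (by omega), (hwle _).trans (by omega)⟩
    · rw [mem_LRE_true] at h2'
      refine (hGm _ ?_ ?_).mpr ?_
      · simp only [boxE, mem_RE_true]; push_cast; omega
      · simp only [boxE, mem_RE_true]
        omega
      · simp only [Dw, Set.mem_ofPred_eq, src_mk, tgt_true, col, ht]
        exact ⟨(hwle _).trans (by omega), (hwle _).trans (by omega)⟩
  have hr0 : inB (4*s-1) ((0:ℤ), y) := by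
    simp only [inB, inR]
    push_cast [Nat.cast_sub (show 1 ≤ 4*s by omega)]
    omega
  have r2 : Reach (↑X ∩ Gm) ((0:ℤ), y) z1 := by
    obtain ⟨w, hw, hr⟩ := exit_box (r := 16*s) (Pool.Agent.U578.SA.inB_mono (by omega) hr0) hradJ
      (by right; left; push_cast; omega)
    exact mono (16*s) _ _ (hz1 _ w hr0 hw hr)
  have r3 : Reach (↑X ∩ Gm) ((0:ℤ), y) z2 := by
    obtain ⟨w, hw, hr⟩ := exit_box (r := 80*s) (Pool.Agent.U578.SA.inB_mono (by omega) hr0) hradJ
      (by right; left; push_cast; omega)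
    exact mono (80*s) _ _ (hz2 _ w (Pool.Agent.U578.SA.inB_mono (by omega) hr0) hw hr)
  -- the outer part of the configuration
  have hout : ∀ x y : Vtx, Reach ((↑F' ∩ Go) \ ↑(boxE (20*s-1))) x y → Reach (↑X ∩ Gm) x y := by
    intro x y hr
    apply hr.mono
    rintro e ⟨⟨h1, h2⟩, h3⟩
    have h3' : e ∉ boxE (16*s) := fun h4 => h3 (by
      have := boxE_mono (show 16*s ≤ 20*s-1 by omega) h4
      exact this)
    refine ⟨?_, (hGo e h3').mp h2⟩
    have h1' : e ∈ F' := h1
    show e ∈ mix (boxE (16*s)) F F'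
    simp only [mix, Finset.mem_union, Finset.mem_inter, Finset.mem_sdiff]
    exact Or.inr ⟨h1', h3'⟩
  -- far vertices and the second hub
  have hhub : ∀ x y : Vtx, inB (20*s-1) x → ¬ inB (80*s+1) y → Reach (↑X ∩ Gm) x y →
      Reach (↑X ∩ Gm) x z2 := by
    intro x y hx hy hr
    obtain ⟨w, hw, hr'⟩ := exit_box (r := 80*s) (Pool.Agent.U578.SA.inB_mono (by omega) hx) hr
      (far_out hy (by omega))
    exact mono (80*s) _ _ (hz2 _ w hx hw hr')
  constructor
  · intro A B T T' hA hB hT hT' hHi hHo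
    -- the inner arm
    obtain ⟨u, huA, v, hv, huv⟩ := hHi
    have hu := hA u huA
    have r1 : Reach (↑X ∩ Gm) u z1 := by
      obtain ⟨w, hw, hr⟩ := exit_box (r := 16*s) (Pool.Agent.U578.SA.inB_mono (by omega) hu) huv
        (far_out (hT v hv) (by omega))
      apply mono (16*s)
      apply hz1 u w (Pool.Agent.U578.SA.inB_mono (by omega) hu) hw
      apply hr.mono
      rintro e ⟨⟨h1, h2⟩, h3⟩
      have h3' : e ∈ boxE (16*s) := h3
      refine ⟨⟨?_, (hGi e h3').mp h2⟩, h3⟩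
      have h1' : e ∈ F := h1
      show e ∈ mix (boxE (16*s)) F F'
      simp only [mix, Finset.mem_union, Finset.mem_inter, Finset.mem_sdiff]
      exact Or.inl ⟨h1', h3'⟩
    -- the outer arm
    obtain ⟨u', huB, v', hv', huv'⟩ := hHo
    have hu' := hB u' huB
    obtain ⟨w3, hw3, hr3⟩ := last_exit (r := 20*s-1) (Pool.Agent.U578.SA.inB_mono (by omega) hu') huv'
    have r4 : Reach (↑X ∩ Gm) w3 v' := hout _ _ hr3
    have r5 : Reach (↑X ∩ Gm) w3 z2 := hhub _ _ hw3 (hT' v' hv') r4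
    exact ⟨u, huA, v', hv', (((r1.trans r2.symm).trans r3).trans r5.symm).trans r4⟩
  · intro B T hB hT hHo
    obtain ⟨b, hb, t, ht, hbt⟩ := hHo
    refine ⟨b, hb, t, ht, ?_⟩
    rcases first_in (r := 20*s-1) hbt with h1 | ⟨w1, hw1, h1, h2⟩
    · exact hout _ _ h1
    · obtain ⟨w2, hw2, h3⟩ := last_exit (r := 20*s-1) hw1 h2
      have r4 : Reach (↑X ∩ Gm) b w1 := hout _ _ h1
      have r5 : Reach (↑X ∩ Gm) w2 t := hout _ _ h3
      have r6 : Reach (↑X ∩ Gm) w1 z2 := hhub _ _ hw1 (hB b hb) r4.symm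
      have r7 : Reach (↑X ∩ Gm) w2 z2 := hhub _ _ hw2 (hT t ht) r5
      exact ((r4.trans r6).trans r7.symm).trans r5

end Pool.Agent.U433.SA
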